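import Mathlib

set_option autoImplicit false

/-!
Isotropic vectors of a nonsingular ternary form off five lines.
-/

namespace Pool.Agent.Helper80.GE

open Polynomial

/-- the bilinear form -/
def bf (Q : Matrix (Fin 3) (Fin 3) ℂ) (x y : Fin 3 → ℂ) : ℂ := ∑ i, ∑ j, Q i j * x i * y j

theorem bf_symm {Q : Matrix (Fin 3) (Fin 3) ℂ} (hQ : Q.IsSymm) (x y : Fin 3 → ℂ) :
    bf Q x y = bf Q y x := by
  have h10 := hQ.apply 0 1
  have h20 := hQ.apply 0 2
  have h21 := hQ.apply 1 2
  simp only [bf, Fin.sum_univ_three]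
  rw [h10, h20, h21]
  ring

theorem bf_dot (Q : Matrix (Fin 3) (Fin 3) ℂ) (x y : Fin 3 → ℂ) :
    bf Q x y = ∑ i, x i * (Q.mulVec y) i := by
  simp only [bf, Matrix.mulVec, dotProduct, Finset.mul_sum]
  refine Finset.sum_congr rfl fun i _ => Finset.sum_congr rfl fun j _ => ?_
  ring

theorem bf_lin (Q : Matrix (Fin 3) (Fin 3) ℂ) (x y z : Fin 3 → ℂ) (a : ℂ) :
    bf Q x (y + a • z) = bf Q x y + a * bf Q x z := by
  simp only [bf, Fin.sum_univ_three, Pi.add_apply, Pi.smul_apply, smul_eq_mul]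
  ring

/-- an isotropic vector -/
theorem exists_isotropic (Q : Matrix (Fin 3) (Fin 3) ℂ) (hQ : Q.IsSymm) :
    ∃ v : Fin 3 → ℂ, v ≠ 0 ∧ bf Q v v = 0 := by
  by_cases h0 : Q 0 0 = 0
  · refine ⟨Pi.single 0 1, by simp, ?_⟩
    simp [bf, Fin.sum_univ_three, h0]
  · obtain ⟨d, hd⟩ := IsAlgClosed.exists_pow_nat_eq (Q 0 1 ^ 2 - Q 0 0 * Q 1 1) (n := 2)
      (by norm_num)
    refine ⟨![(-Q 0 1 + d) / Q 0 0, 1, 0], ?_, ?_⟩
    · intro h
      have := congrFun h 1
      simp at this
    · have h10 := hQ.apply 0 1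
      simp only [bf, Fin.sum_univ_three]
      simp only [Matrix.cons_val_zero, Matrix.cons_val_one, Matrix.cons_val, mul_zero, add_zero,
        mul_one]
      rw [h10]
      field_simp
      linear_combination hd

theorem quad_zero {a b d : ℂ}
    (h : C a * Polynomial.X ^ 2 + C b * Polynomial.X + C d = (0 : ℂ[X])) :
    a = 0 ∧ b = 0 ∧ d = 0 := by
  refine ⟨?_, ?_, ?_⟩
  · have := congrArg (fun q => Polynomial.coeff q 2) h
    simpa [Polynomial.coeff_X] using this
  · have := congrArg (fun q => Polynomial.coeff q 1) h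
    simpa [Polynomial.coeff_X_pow] using this
  · have := congrArg (fun q => Polynomial.coeff q 0) h
    simpa using this

/-- the main statement -/
theorem exists_iso (Q : Matrix (Fin 3) (Fin 3) ℂ) (hQ : Q.IsSymm) (hdet : Q.det ≠ 0)
    (f : Fin 5 → Fin 3 → ℂ) (hf : ∀ i, f i ≠ 0) :
    ∃ s : Fin 3 → ℂ, (∑ i, ∑ j, Q i j * s i * s j) = 0 ∧ ∀ i, ∑ j, f i j * s j ≠ 0 := by
  classical
  obtain ⟨v, hv0, hv⟩ := exists_isotropic Q hQ
  -- a vector with pairing one
  obtain ⟨w0, hw0⟩ : ∃ w0 : Fin 3 → ℂ, bf Q w0 v = 1 := by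
    have h1 : Q.mulVec v ≠ 0 := by
      intro h
      exact hdet (Matrix.exists_mulVec_eq_zero_iff.mp ⟨v, hv0, h⟩)
    obtain ⟨j, hj⟩ := Function.ne_iff.mp h1
    have hj : (Q.mulVec v) j ≠ 0 := hj
    refine ⟨Pi.single j ((Q.mulVec v) j)⁻¹, ?_⟩
    rw [bf_dot, Finset.sum_eq_single j]
    · rw [Pi.single_eq_same, inv_mul_cancel₀ hj]
    · intro b _ hb
      rw [Pi.single_eq_of_ne hb, zero_mul]
    · simp
  set w : Fin 3 → ℂ := w0 + (-(bf Q w0 w0 / 2)) • v with hw
  have hvw : bf Q v w = 1 := by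
    rw [hw, bf_lin, hv, bf_symm hQ v w0, hw0]; ring
  have hww : bf Q w w = 0 := by
    have h1 : bf Q w w = bf Q w w0 + (-(bf Q w0 w0 / 2)) * bf Q w v := by
      conv_lhs => rw [hw]
      exact bf_lin Q w w0 v _
    have h2 : bf Q w v = 1 := by rw [bf_symm hQ w v, hvw]
    have h3 : bf Q w w0 = bf Q w0 w := bf_symm hQ w w0
    have h4 : bf Q w0 w = bf Q w0 w0 + (-(bf Q w0 w0 / 2)) * 1 := by
      rw [hw, bf_lin, hw0]
    rw [h1, h2, h3, h4]; ring
  -- the third vector
  set u : Fin 3 → ℂ := crossProduct (Q.mulVec v) (Q.mulVec w) with hu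
  have hcross : ∀ a b : Fin 3 → ℂ, crossProduct a b =
      ![a 1 * b 2 - a 2 * b 1, a 2 * b 0 - a 0 * b 2, a 0 * b 1 - a 1 * b 0] := by
    intro a b
    rw [cross_apply]
  have hsum : ∀ (a b : Fin 3 → ℂ), ∑ i, a i * b i = a 0 * b 0 + a 1 * b 1 + a 2 * b 2 := by
    intro a b; rw [Fin.sum_univ_three]
  have hvu : bf Q u v = 0 := by
    rw [bf_dot, hsum, hu, hcross]
    simp only [Matrix.cons_val_zero, Matrix.cons_val_one, Matrix.cons_val]
    ring
  have hwu : bf Q u w = 0 := by
    rw [bf_dot, hsum, hu, hcross]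
    simp only [Matrix.cons_val_zero, Matrix.cons_val_one, Matrix.cons_val]
    ring
  -- the determinant of the basis
  set P : Matrix (Fin 3) (Fin 3) ℂ := Matrix.of ![v, u, w] with hP
  have hPdet : P.det = 1 := by
    have h1 : P.det = bf Q v w * bf Q w v - bf Q v v * bf Q w w := by
      rw [Matrix.det_fin_three]
      simp only [hP, Matrix.of_apply, Matrix.cons_val_zero, Matrix.cons_val_one, Matrix.cons_val]
      rw [hu, hcross]
      simp only [Matrix.cons_val_zero, Matrix.cons_val_one, Matrix.cons_val]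
      rw [bf_dot, bf_dot, bf_dot, bf_dot, hsum, hsum, hsum, hsum]
      ring
    rw [h1, hv, hww, bf_symm hQ w v, hvw]; ring
  have huu : bf Q u u ≠ 0 := by
    intro h
    -- `Q u` is orthogonal to the basis
    have h1 : P.mulVec (Q.mulVec u) = 0 := by
      funext i
      have h2 : ∀ x : Fin 3 → ℂ, bf Q x u = ∑ i, x i * (Q.mulVec u) i := fun x => bf_dot Q x u
      fin_cases i
      · change ∑ j, v j * (Q.mulVec u) j = 0
        rw [← h2, bf_symm hQ, hvu]
      · change ∑ j, u j * (Q.mulVec u) j = 0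
        rw [← h2, h]
      · change ∑ j, w j * (Q.mulVec u) j = 0
        rw [← h2, bf_symm hQ, hwu]
    have h3 : Q.mulVec u = 0 := by
      by_contra h4
      have := Matrix.exists_mulVec_eq_zero_iff.mp ⟨_, h4, h1⟩
      rw [hPdet] at this
      exact one_ne_zero this
    have h5 : u = 0 := by
      by_contra h6
      exact hdet (Matrix.exists_mulVec_eq_zero_iff.mp ⟨u, h6, h3⟩)
    have h7 : P.det = 0 := by
      apply Matrix.det_eq_zero_of_row_eq_zero 1
      intro j
      change u j = 0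
      rw [h5]; rfl
    rw [hPdet] at h7
    exact one_ne_zero h7
  -- the parametrisation
  let ev : (Fin 3 → ℂ) → (Fin 3 → ℂ) → ℂ := fun a b => ∑ j, a j * b j
  let p : Fin 5 → ℂ[X] := fun i => C (-(bf Q u u / 2) * ev (f i) v) * Polynomial.X ^ 2 +
    C (ev (f i) u) * Polynomial.X + C (ev (f i) w)
  have hp : ∀ i, p i ≠ 0 := by
    intro i h
    obtain ⟨h2, h1, h0⟩ := quad_zero h
    have h3 : ev (f i) v = 0 := by
      rcases mul_eq_zero.mp h2 with h4 | h4
      · exfalso
        apply huu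
        have : bf Q u u / 2 = 0 := neg_eq_zero.mp h4
        linear_combination 2 * this
      · exact h4
    apply hf i
    by_contra h4
    have h5 : P.mulVec (f i) = 0 := by
      funext j
      fin_cases j
      · change ∑ j, v j * (f i) j = 0
        rw [← h3]
        exact Finset.sum_congr rfl fun j _ => mul_comm _ _
      · change ∑ j, u j * (f i) j = 0
        rw [← h1]
        exact Finset.sum_congr rfl fun j _ => mul_comm _ _
      · change ∑ j, w j * (f i) j = 0
        rw [← h0]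
        exact Finset.sum_congr rfl fun j _ => mul_comm _ _
    have := Matrix.exists_mulVec_eq_zero_iff.mp ⟨f i, h4, h5⟩
    rw [hPdet] at this
    exact one_ne_zero this
  have hprod : (∏ i, p i) ≠ 0 := Finset.prod_ne_zero_iff.mpr fun i _ => hp i
  obtain ⟨t, ht⟩ : ∃ t, (∏ i, p i).eval t ≠ 0 := by
    by_contra hcon
    push Not at hcon
    exact hprod (Polynomial.funext fun t => by rw [hcon, Polynomial.eval_zero])
  rw [Polynomial.eval_prod] at ht
  have ht' := Finset.prod_ne_zero_iff.mp ht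
  set s : Fin 3 → ℂ := (w + t • u) + (-(bf Q u u / 2) * t ^ 2) • v with hs
  refine ⟨s, ?_, ?_⟩
  · change bf Q s s = 0
    have e1 : ∀ x : Fin 3 → ℂ, bf Q x s = bf Q x w + t * bf Q x u +
        (-(bf Q u u / 2) * t ^ 2) * bf Q x v := by
      intro x
      rw [hs, bf_lin, bf_lin]
    rw [e1, bf_symm hQ s w, bf_symm hQ s u, bf_symm hQ s v, e1, e1, e1, hww, hv, hvw, hvu, hwu,
      bf_symm hQ w u, hwu, bf_symm hQ w v, hvw, bf_symm hQ v u, hvu]
    ring
  · intro i
    have h1 : ∑ j, f i j * s j = (p i).eval t := by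
      simp only [p, Polynomial.eval_add, Polynomial.eval_mul, Polynomial.eval_C,
        Polynomial.eval_pow, Polynomial.eval_X, ev, hs, Pi.add_apply, Pi.smul_apply, smul_eq_mul,
        Fin.sum_univ_three]
      ring
    rw [h1]
    exact ht' i (Finset.mem_univ _)

end Pool.Agent.Helper80.GE
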