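import Pool.Agent.Helper80.GE.Norm5
import Pool.Agent.Helper16.CubicSplit
import Pool.Agent.Helper34.GE.Defs

set_option autoImplicit false

/-!
Parity of theta characteristics on smooth plane quintics: the space of sections has dimension
0, 1 or 3.  Project GE, MP_ffd2c1_ag.
-/

namespace Pool.Agent.Helper80.GE

open MvPolynomial Pool.Agent.Helper29 Pool.Agent.Helper29.HP Pool.Agent.Helper29.HP.Six

/-- the space of sections, modulo the equation of the quintic -/
noncomputable def Sig5 (δ h : P3) (k : ℕ) : Submodule ℂ (P3 ⧸ Ideal.span {δ}) :=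
  Submodule.span ℂ {f | ∃ s G : P3, s.IsHomogeneous (k + 2) ∧ G.IsHomogeneous 2 ∧
    δ ∣ s ^ 2 - h * G ∧ Ideal.Quotient.mk (Ideal.span {δ}) s = f}

theorem isUnit_of_hom0 {p : P3} (hp : p.IsHomogeneous 0) (h0 : p ≠ 0) : IsUnit p := by
  rw [← totalDegree_zero_iff_isHomogeneous, totalDegree_eq_zero_iff_eq_C] at hp
  have hc : coeff 0 p ≠ 0 := fun h => h0 (by rw [hp, h, C_0])
  rw [hp]
  exact (isUnit_iff_ne_zero.mpr hc).map C

theorem irreducible_of_hom1 {l : P3} (hl : l.IsHomogeneous 1) (h0 : l ≠ 0) : Irreducible l := by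
  obtain ⟨f, hf⟩ := Helper16.exists_dual_of_hom1 hl
  have h1 : Helper16.linp f = l := by
    apply MvPolynomial.funext
    intro z
    rw [Helper16.eval_linp, hf]
  rw [← h1]
  apply Helper16.linp_irreducible
  rintro rfl
  apply h0
  rw [← h1, Helper16.linp]
  simp

/-- the product of two conics which is a square -/
theorem conic_case {G H K : P3} (hG : G.IsHomogeneous 2) (hK : K.IsHomogeneous 2) (hG0 : G ≠ 0)
    (h : G * H = K ^ 2) : (∃ c : ℂ, K = C c * G) ∨ ∃ g : P3, g.IsHomogeneous 1 ∧ G = g ^ 2 := by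
  classical
  by_cases hirr : Irreducible G
  · left
    exact eq_C_mul_of_dvd hG hG0 hK (hirr.prime.dvd_of_dvd_pow ⟨H, h.symm⟩)
  have hnu : ¬ IsUnit G := by
    intro hu
    have h1 := MvPolynomial.isUnit_iff_totalDegree_of_isReduced.mp hu
    have h2 := hG.totalDegree hG0
    omega
  obtain ⟨a, b, hab, ha, hb⟩ : ∃ a b : P3, G = a * b ∧ ¬ IsUnit a ∧ ¬ IsUnit b := by
    by_contra hcon
    push Not at hcon
    exact hirr ⟨hnu, fun a b hab => or_iff_not_imp_left.mpr fun h1 => hcon a b hab h1⟩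
  have hab0 : a * b ≠ 0 := by rw [← hab]; exact hG0
  obtain ⟨i, j, hi, hj, hij⟩ := Helper16.hom_factor (by rw [← hab]; exact hG) hab0
  have ha0 := left_ne_zero_of_mul hab0
  have hb0 := right_ne_zero_of_mul hab0
  have hi0 : i ≠ 0 := by
    rintro rfl
    exact ha (isUnit_of_hom0 hi ha0)
  have hj0 : j ≠ 0 := by
    rintro rfl
    exact hb (isUnit_of_hom0 hj hb0)
  obtain rfl : i = 1 := by omega
  obtain rfl : j = 1 := by omega
  have hai := irreducible_of_hom1 hi ha0
  have hbi := irreducible_of_hom1 hj hb0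
  have haK : a ∣ K := hai.prime.dvd_of_dvd_pow ⟨b * H, by rw [← h, hab]; ring⟩
  have hbK : b ∣ K := hbi.prime.dvd_of_dvd_pow ⟨a * H, by rw [← h, hab]; ring⟩
  by_cases hd : b ∣ a
  · right
    obtain ⟨c, hc⟩ := eq_C_mul_of_dvd hj hb0 hi hd
    obtain ⟨d, hd⟩ := IsAlgClosed.exists_pow_nat_eq c (n := 2) (by norm_num)
    refine ⟨C d * b, hj.C_mul _, ?_⟩
    rw [hab, hc, mul_pow, ← C_pow, hd]
    ring
  · left
    obtain ⟨K1, hK1⟩ := haK
    have h1 : b ∣ K1 := by
      rw [hK1] at hbK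
      exact (hbi.prime.dvd_or_dvd hbK).resolve_left hd
    refine eq_C_mul_of_dvd hG hG0 hK ?_
    rw [hK1, hab]
    exact mul_dvd_mul_left a h1

/-- multiplication of the linear forms by `r`, modulo `δ` -/
noncomputable def lmul (δ r : P3) : ((Fin 3 → ℂ) →ₗ[ℂ] ℂ) →ₗ[ℂ] (P3 ⧸ Ideal.span {δ}) where
  toFun l := Ideal.Quotient.mk (Ideal.span {δ}) (r * Helper16.linp l)
  map_add' l m := by
    rw [← map_add, ← mul_add]
    congr 2
    apply MvPolynomial.funext
    intro z
    simp only [map_add, Helper16.eval_linp, LinearMap.add_apply]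
  map_smul' a l := by
    have h1 : Helper16.linp (a • l) = a • Helper16.linp l := by
      apply MvPolynomial.funext
      intro z
      simp only [Helper16.eval_linp, LinearMap.smul_apply, smul_eval, smul_eq_mul]
    rw [h1, mul_smul_comm, RingHom.id_apply]
    rfl

theorem lmul_apply (δ r : P3) (l : (Fin 3 → ℂ) →ₗ[ℂ] ℂ) :
    lmul δ r l = Ideal.Quotient.mk (Ideal.span {δ}) (r * Helper16.linp l) := rfl

/-- **Parity.** If the space of sections of a theta characteristic of a smooth plane quintic has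
even dimension, there are no sections. -/
theorem parity5 (δ h : P3) (k : ℕ) (hδ : δ.IsHomogeneous 5)
    (hsm : ∀ z : Fin 3 → ℂ, z ≠ 0 → eval z δ = 0 → ∃ i, eval z (pderiv i δ) ≠ 0)
    (hh : h.IsHomogeneous (2 * k + 2)) (hδh : ¬ δ ∣ h)
    (hev : Even (Module.finrank ℂ (Sig5 δ h k))) (s G : P3) (hs : s.IsHomogeneous (k + 2))
    (hG : G.IsHomogeneous 2) (hsG : δ ∣ s ^ 2 - h * G) : δ ∣ s := by
  classical
  by_contra hδs
  have hirr : Irreducible δ := irreducible_of_smooth (by norm_num) hδ hsm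
  have hpr : Prime δ := hirr.prime
  have hπ0 : ∀ x : P3, Ideal.Quotient.mk (Ideal.span {δ}) x = 0 ↔ δ ∣ x := by
    intro x
    rw [Ideal.Quotient.eq_zero_iff_mem, Ideal.mem_span_singleton]
  by_cases h1 : ∀ t H : P3, t.IsHomogeneous (k + 2) → H.IsHomogeneous 2 → δ ∣ t ^ 2 - h * H →
      ∃ c : ℂ, δ ∣ t - C c * s
  · -- one section
    have h2 : Sig5 δ h k = Submodule.span ℂ {Ideal.Quotient.mk (Ideal.span {δ}) s} := by
      apply le_antisymm
      · rw [Sig5, Submodule.span_le]
        rintro f ⟨t, H, ht, hH, htH, rfl⟩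
        obtain ⟨c, hc⟩ := h1 t H ht hH htH
        rw [SetLike.mem_coe, Submodule.mem_span_singleton]
        refine ⟨c, ?_⟩
        have h3 := (hπ0 _).mpr hc
        rw [map_sub, map_mul, sub_eq_zero] at h3
        rw [h3, ← map_mul, ← smul_eq_C_mul]
        rfl
      · rw [Submodule.span_le, Set.singleton_subset_iff]
        exact Submodule.subset_span ⟨s, G, hs, hG, hsG, rfl⟩
    rw [h2, finrank_span_singleton] at hev
    · exact absurd hev (by decide)
    · rw [Ne, hπ0]
      exact hδs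
  -- two independent sections
  push Not at h1
  obtain ⟨t, H, ht, hH, htH, hind⟩ := h1
  obtain ⟨K, hK, hstK⟩ := norm_dvd5 δ hδ hsm (x := s * t) (y := h)
    (w := G * H) (hs.mul ht) hh (by omega) hδh (by
      obtain ⟨a, ha⟩ := hsG
      obtain ⟨b, hb⟩ := htH
      refine ⟨a * t ^ 2 + h * G * b, ?_⟩
      have h1 : s ^ 2 = h * G + δ * a := by linear_combination ha
      have h2 : t ^ 2 = h * H + δ * b := by linear_combination hb
      rw [mul_pow, h1]
      linear_combination (h * G) * h2)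
  have hK2 : K.IsHomogeneous 2 := by
    have : k + 2 + (k + 2) - (2 * k + 2) = 2 := by omega
    rwa [this] at hK
  have hdet : δ ∣ G * H - K ^ 2 := by
    have h1 : δ ∣ h ^ 2 * (G * H - K ^ 2) := by
      obtain ⟨a, ha⟩ := hsG
      obtain ⟨b, hb⟩ := htH
      obtain ⟨e, he⟩ := hstK
      refine ⟨e * (s * t + h * K) - a * t ^ 2 - h * G * b, ?_⟩
      have h1 : s ^ 2 = h * G + δ * a := by linear_combination ha
      have h2 : t ^ 2 = h * H + δ * b := by linear_combination hb
      have h3 : s * t = h * K + δ * e := by linear_combination he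
      have h4 : (s * t) ^ 2 = (h * G + δ * a) * t ^ 2 := by rw [mul_pow, h1]
      have h5 : (s * t) ^ 2 = (h * K + δ * e) * (s * t) := by rw [← h3]; ring
      linear_combination (-(h * G)) * h2 + h5 - h4 + (h * K) * h3
    rcases hpr.dvd_or_dvd h1 with h2 | h2
    · exact absurd (hpr.dvd_of_dvd_pow h2) hδh
    · exact h2
  have hhom : (G * H - K ^ 2).IsHomogeneous 4 := (hG.mul hH).sub (by
    have := hK2.pow 2
    exact this)
  have hGH : G * H = K ^ 2 := by
    by_contra hne
    have hne' : G * H - K ^ 2 ≠ 0 := sub_ne_zero.mpr hne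
    obtain ⟨q, hq⟩ := hdet
    rw [hq] at hhom hne'
    obtain ⟨a, b, ha, hb, hab⟩ := Helper16.hom_factor hhom hne'
    have ha1 : a = 5 := ha.inj_right hδ hirr.ne_zero
    omega
  have hG0 : G ≠ 0 := by
    rintro rfl
    rw [mul_zero, sub_zero] at hsG
    exact hδs (hpr.dvd_of_dvd_pow hsG)
  obtain ⟨g, hg, hGg⟩ : ∃ g : P3, g.IsHomogeneous 1 ∧ G = g ^ 2 := by
    rcases conic_case hG hK2 hG0 hGH with ⟨c, hc⟩ | h2
    · exfalso
      have h3 : H = C (c ^ 2) * G := by
        apply mul_left_cancel₀ hG0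
        rw [hGH, hc, C_pow]
        ring
      have h4 : δ ∣ (t - C c * s) * (t - C (-c) * s) := by
        obtain ⟨a, ha⟩ := hsG
        obtain ⟨b, hb⟩ := htH
        refine ⟨b - C (c ^ 2) * a, ?_⟩
        rw [h3] at hb
        simp only [C_pow, C_neg] at hb ⊢
        linear_combination hb - (C c) ^ 2 * ha
      rcases hpr.dvd_or_dvd h4 with h5 | h5
      · exact hind _ h5
      · exact hind _ h5
    · exact h2
  have hg0 : g ≠ 0 := by
    rintro rfl
    exact hG0 (by rw [hGg]; ring)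
  have hδ1 : ∀ l : P3, l.IsHomogeneous 1 → l ≠ 0 → ¬ δ ∣ l := by
    rintro l hl hl0 ⟨q, rfl⟩
    obtain ⟨a, b, ha, hb, hab⟩ := Helper16.hom_factor hl hl0
    have ha1 : a = 5 := ha.inj_right hδ hirr.ne_zero
    omega
  obtain ⟨r, hr, hsr⟩ := norm_dvd5 δ hδ hsm (x := s) (y := g) (w := h) hs hg (by omega)
    (hδ1 g hg hg0) (by rw [hGg] at hsG; rwa [mul_comm (g ^ 2) h])
  have hr1 : r.IsHomogeneous (k + 1) := by
    have : k + 2 - 1 = k + 1 := by omega
    rwa [this] at hr
  have hrh : δ ∣ r ^ 2 - h := by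
    have h2 : δ ∣ g ^ 2 * (r ^ 2 - h) := by
      obtain ⟨a, ha⟩ := hsG
      obtain ⟨b, hb⟩ := hsr
      refine ⟨a - b * (s + g * r), ?_⟩
      rw [hGg] at ha
      linear_combination ha - (s + g * r) * hb
    rcases hpr.dvd_or_dvd h2 with h3 | h3
    · exact absurd (hpr.dvd_of_dvd_pow h3) (hδ1 g hg hg0)
    · exact h3
  have hδr : ¬ δ ∣ r := by
    intro h2
    apply hδh
    have h3 : δ ∣ r ^ 2 := dvd_pow h2 two_ne_zero
    have h4 := dvd_sub h3 hrh
    rwa [sub_sub_cancel] at h4
  have hrange : Sig5 δ h k = LinearMap.range (lmul δ r) := by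
    apply le_antisymm
    · rw [Sig5, Submodule.span_le]
      rintro f ⟨t, H, ht, hH, htH, rfl⟩
      obtain ⟨q, hq, htq⟩ := norm_dvd5 δ hδ hsm (x := t) (y := r) (w := H) ht hr1 (by omega) hδr
        (by
          obtain ⟨a, ha⟩ := htH
          obtain ⟨b, hb⟩ := hrh
          refine ⟨a - b * H, ?_⟩
          linear_combination ha - H * hb)
      have hq1 : q.IsHomogeneous 1 := by
        have : k + 2 - (k + 1) = 1 := by omega
        rwa [this] at hq
      obtain ⟨f, hf⟩ := Helper16.exists_dual_of_hom1 hq1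
      have h2 : Helper16.linp f = q := by
        apply MvPolynomial.funext
        intro z
        rw [Helper16.eval_linp, hf]
      refine ⟨f, ?_⟩
      rw [lmul_apply, h2]
      have h3 := (hπ0 _).mpr htq
      rw [map_sub, sub_eq_zero] at h3
      exact h3.symm
    · rintro f ⟨l, rfl⟩
      refine Submodule.subset_span ⟨r * Helper16.linp l, Helper16.linp l ^ 2, ?_, ?_, ?_, rfl⟩
      · exact hr1.mul (Helper16.linp_hom l)
      · exact (Helper16.linp_hom l).pow 2
      · obtain ⟨b, hb⟩ := hrh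
        exact ⟨b * Helper16.linp l ^ 2, by linear_combination (Helper16.linp l ^ 2) * hb⟩
  have hinj : Function.Injective (lmul δ r) := by
    rw [injective_iff_map_eq_zero]
    intro l hl
    by_contra hl0
    rw [lmul_apply, hπ0] at hl
    rcases hpr.dvd_or_dvd hl with h2 | h2
    · exact hδr h2
    · exact hδ1 _ (Helper16.linp_hom l) (Helper16.linp_ne_zero hl0) h2
  have h3 : Module.finrank ℂ ((Fin 3 → ℂ) →ₗ[ℂ] ℂ) = 3 := by
    rw [Module.finrank_linearMap]
    simp
  rw [hrange, LinearMap.finrank_range_of_inj hinj, h3] at hev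
  exact absurd hev (by decide)

/-- **Parity**, in terms of `thetaSections`. -/
theorem parity_theta (δ h : P3) (k : ℕ) (hδ : δ.IsHomogeneous 5)
    (hsm : ∀ z : Fin 3 → ℂ, z ≠ 0 → eval z δ = 0 → ∃ i, eval z (pderiv i δ) ≠ 0)
    (hh : h.IsHomogeneous (2 * k + 2))
    (hev : Even (Module.finrank ℂ (Pool.Agent.Helper34.GE.Defs.thetaSections δ h (k + 2) 2)))
    (s G : P3) (hs : s.IsHomogeneous (k + 2)) (hG : G.IsHomogeneous 2)
    (hsG : δ ∣ s ^ 2 - h * G) : δ ∣ s := by
  by_cases hδh : δ ∣ h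
  · have h1 : δ ∣ s ^ 2 := by
      have h2 := dvd_add hsG (hδh.mul_right G)
      rwa [sub_add_cancel] at h2
    exact (irreducible_of_smooth (by norm_num) hδ hsm).prime.dvd_of_dvd_pow h1
  · exact parity5 δ h k hδ hsm hh hδh hev s G hs hG hsG

end Pool.Agent.Helper80.GE
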