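import Pool.Agent.Helper54.GE.NDh
import Pool.Agent.Helper80.GE.Iso

set_option autoImplicit false

/-!
Gale duality of cubic fourfolds: the existence of a nondegenerate point, without hypotheses.
-/

namespace Pool.Agent.Helper80.GE

open Pool.Agent.Helper54.GE

/-- existence of a nondegenerate point -/
theorem core {D : Dat} (hs : Sm D) (hl1 : D.l1 ≠ 0) (hl2 : D.l2 ≠ 0) : Core D :=
  core_of_iso (fun Q hQ hd f hf => exists_iso Q hQ hd f hf) hs hl1 hl2

end Pool.Agent.Helper80.GE
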