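import Pool.Agent.Helper34.GE.Eck
import Pool.Agent.Helper80.EK.Sm5
import Pool.Agent.Helper16.CubicDisjoint

set_option autoImplicit false

/-!
The Eckardt theorem without the assumption that the quintic is smooth.
-/

namespace Pool.Agent.Helper80.GE

open MvPolynomial Module Pool.Agent.Helper29.HP Pool.Agent.Helper16 Pool.Agent.Helper34.GE

theorem nf_sum (c : Cub (I6 → ℂ)) (z : Fin 3 → ℂ) (v : Fin 4 → ℂ) :
    c.nf z v v = ∑ i, ∑ j, v i * (v j * c.Nm z i j) := by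
  have h : v = ∑ i, v i • (Pi.single i 1 : Fin 4 → ℂ) := by
    funext k
    simp [Finset.sum_apply, Pi.single_apply]
  have h2 : ∀ a b : Fin 4 → ℂ, c.nf z (∑ i, a i • (Pi.single i 1 : Fin 4 → ℂ))
      (∑ i, b i • (Pi.single i 1 : Fin 4 → ℂ)) = ∑ i, ∑ j, a i * (b j * c.Nm z i j) := by
    intro a b
    rw [map_sum, Finset.sum_comm]
    refine Finset.sum_congr rfl fun j _ => ?_
    rw [map_sum, LinearMap.sum_apply]
    refine Finset.sum_congr rfl fun i _ => ?_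
    simp only [map_smul, LinearMap.smul_apply, smul_eq_mul, Cub.Nm_apply]
    ring
  rw [← h2 v v, ← h]

/-- the disjoint planes case -/
theorem rational_of_planes (F : MvPolynomial (Fin 6) ℂ) (hF : F.IsHomogeneous 3)
    (hs : ∀ x : Fin 6 → ℂ, x ≠ 0 → ∃ i, eval x (pderiv i F) ≠ 0)
    (w : Basis (Fin 3 ⊕ Fin 3) ℂ (Fin 6 → ℂ)) (N : Matrix (Fin 4) (Fin 4) P3)
    (hQ : ∀ (y z : Fin 3 → ℂ) (s : ℂ),
      eval (∑ i, y i • w (.inl i) + s • ∑ i, z i • w (.inr i)) F =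
        s * ∑ i, ∑ j, eval z (N i j) * (![y 0, y 1, y 2, s] : Fin 4 → ℂ) i *
          (![y 0, y 1, y 2, s] : Fin 4 → ℂ) j)
    (c : Cub (I6 → ℂ)) (hP : c.Iso P0) (hN : c.Nm (X : Fin 3 → P3) = (C (1 / 3 : ℂ) : P3) • N)
    {A B : Submodule ℂ (I6 → ℂ)} (hA : c.Pl A) (hB : c.Pl B) (hAB : A ⊓ B = ⊥) :
    (Ideal.span {aeval (Fin.cons 1 X : Fin 6 → MvPolynomial (Fin 5) ℂ) F}).IsPrime ∧
      Nonempty (FractionRing (MvPolynomial (Fin 5) ℂ ⧸
          Ideal.span {aeval (Fin.cons 1 X : Fin 6 → MvPolynomial (Fin 5) ℂ) F}) ≃ₐ[ℂ]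
        FractionRing (MvPolynomial (Fin 4) ℂ)) := by
  set e : (I6 → ℂ) ≃ₗ[ℂ] (Fin 6 → ℂ) := w.equivFun.symm with he
  have hex : ∀ x : I6 → ℂ,
      e x = ∑ i, x (.inl i) • w (.inl i) + ∑ i, x (.inr i) • w (.inr i) := by
    intro x
    rw [he, Basis.equivFun_symm_apply, Fintype.sum_sum_type]
  have hcF : ∀ x : I6 → ℂ, eval (e x) F = c.T x x x := by
    intro x
    have h1 : x = pt (pZ ℂ x) (mk4 (pY ℂ x) 1) := by
      rw [pt_mk4, one_smul]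
      funext i
      rcases i with i | i <;> simp [iY, iZ, pY, pZ]
    have h2 : eval (e x) F = 1 * ∑ i, ∑ j, eval (pZ ℂ x) (N i j) *
        mk4 (pY ℂ x) 1 i * mk4 (pY ℂ x) 1 j := by
      rw [mk4, ← hQ, hex, one_smul]
      rfl
    conv_rhs => rw [h1]
    rw [h2, Cub.T_pt hP, mk4_3, nf_sum, Finset.mul_sum, Finset.mul_sum]
    refine Finset.sum_congr rfl fun i _ => ?_
    rw [Finset.mul_sum, Finset.mul_sum]
    refine Finset.sum_congr rfl fun j _ => ?_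
    have h3 : c.Nm (pZ ℂ x) i j = 1 / 3 * eval (pZ ℂ x) (N i j) := by
      rw [← c.Nm_eval, hN, Matrix.map_apply, Matrix.smul_apply, smul_eq_mul, map_mul, eval_C]
    rw [h3]
    ring
  have hmap : ∀ W : Submodule ℂ (I6 → ℂ), c.Pl W →
      finrank ℂ (W.map (e : (I6 → ℂ) →ₗ[ℂ] (Fin 6 → ℂ))) = 3 ∧
      ∀ x ∈ W.map (e : (I6 → ℂ) →ₗ[ℂ] (Fin 6 → ℂ)), eval x F = 0 := by
    rintro W ⟨h1, h2⟩
    refine ⟨?_, ?_⟩
    · rw [← h1]
      exact LinearEquiv.finrank_map_eq e W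
    · rintro x ⟨y, hy, rfl⟩
      have := hcF y
      rw [h2 y hy] at this
      exact this
  refine rational_of_disjoint F hF hs (hmap A hA) (hmap B hB) ?_
  rw [← Submodule.map_inf _ e.injective, hAB, Submodule.map_bot]

/-- Eckardt cubic fourfolds with an even twisted theta characteristic are rational. -/
theorem eck_all (F : MvPolynomial (Fin 6) ℂ) (hF : F.IsHomogeneous 3)
    (hs : ∀ x : Fin 6 → ℂ, x ≠ 0 → ∃ i, eval x (pderiv i F) ≠ 0)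
    (w : Basis (Fin 3 ⊕ Fin 3) ℂ (Fin 6 → ℂ))
    (M : Matrix (Fin 3) (Fin 3) P3) (hM : M.IsSymm)
    (hQ : ∀ (y z : Fin 3 → ℂ) (s : ℂ),
      eval (∑ i, y i • w (.inl i) + s • ∑ i, z i • w (.inr i)) F =
        s * (z 0 * y 0 ^ 2 + ∑ i, ∑ j, eval z (M i j) * (![y 1, y 2, s] : Fin 3 → ℂ) i *
          (![y 1, y 2, s] : Fin 3 → ℂ) j))
    (μ : P3) (k : ℕ) (hμ : μ.IsHomogeneous (2 * k))
    (hnod : ∀ z : Fin 3 → ℂ, z ≠ 0 → z 0 = 0 → eval z M.det = 0 → eval z μ ≠ 0)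
    (hsp : ∀ π : P3, Irreducible π → π ∣ μ →
      ∃ g h : P3, ¬ π ∣ h ∧ π ∣ g ^ 2 - X 0 * M.det * h ^ 2)
    (hne : ∀ s G : P3, s.IsHomogeneous (k + 2) → G.IsHomogeneous 2 →
      M.det ∣ s ^ 2 - μ * M.adjugate 2 2 * G → M.det ∣ s) :
    (Ideal.span {aeval (Fin.cons 1 X : Fin 6 → MvPolynomial (Fin 5) ℂ) F}).IsPrime ∧
      Nonempty (FractionRing (MvPolynomial (Fin 5) ℂ ⧸
          Ideal.span {aeval (Fin.cons 1 X : Fin 6 → MvPolynomial (Fin 5) ℂ) F}) ≃ₐ[ℂ]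
        FractionRing (MvPolynomial (Fin 4) ℂ)) := by
  obtain ⟨c, hP, hN, hdisc, -, hR⟩ := exists_cub_block F hF hs w M hM hQ
  have h3 : ((1 / 3 : ℂ)) ≠ 0 := by norm_num
  have h00 : c.Nm (X : Fin 3 → P3) 0 0 = C (1 / 3 : ℂ) * X 0 := by rw [hN]; rfl
  have h0j : ∀ j : Fin 3, c.Nm (X : Fin 3 → P3) 0 j.succ = 0 := by
    intro j
    rw [hN]
    change C (1 / 3 : ℂ) * (0 : P3) = 0
    rw [mul_zero]
  rcases Pool.Agent.Helper80.EK.smooth_or_disjoint hP (1 / 3) h3 h00 h0j with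
    ⟨A, B, hA, hB, hAB⟩ | hsm
  · refine rational_of_planes F hF hs w (blk M) ?_ c hP hN hA hB hAB
    intro y z s
    rw [hQ]
    congr 1
    simp only [Fin.sum_univ_succ (n := 3), blk_00, blk_0s, blk_s0, blk_ss, map_zero, zero_mul,
      Finset.sum_const_zero, add_zero, zero_add]
    have h0 : (![y 0, y 1, y 2, s] : Fin 4 → ℂ) 0 = y 0 := rfl
    have h1 : ∀ i : Fin 3, (![y 0, y 1, y 2, s] : Fin 4 → ℂ) i.succ =
        (![y 1, y 2, s] : Fin 3 → ℂ) i := fun i => rfl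
    simp only [h0, h1, eval_X]
    ring
  · refine eck F hF hs w M hM hQ ?_ μ k hμ hnod hsp hne
    intro z hz h0
    have hdet : ((c.Nm (X : Fin 3 → P3)).submatrix Fin.succ Fin.succ).det =
        C ((1 / 3 : ℂ) ^ 3) * M.det := by
      have hM3 : (c.Nm (X : Fin 3 → P3)).submatrix Fin.succ Fin.succ =
          (C (1 / 3 : ℂ) : P3) • M := by
        rw [hN]; rfl
      rw [hM3, Matrix.det_smul, Fintype.card_fin, C_pow]
    obtain ⟨i, hi⟩ := hsm z hz (by rw [hdet, map_mul, h0, mul_zero])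
    refine ⟨i, ?_⟩
    rw [hdet, pderiv_C_mul, map_mul, eval_C] at hi
    exact right_ne_zero_of_mul hi

end Pool.Agent.Helper80.GE
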