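import Pool.Agent.Helper5.HP.TwoEx
import Pool.Agent.Helper80.EK.Five

set_option autoImplicit false

/-!
The homogeneous coordinate ring of a smooth plane quintic is normal (in the form needed for
sections of theta characteristics); parity.  Project GE, MP_ffd2c1_ag.
-/

namespace Pool.Agent.Helper80.GE

open MvPolynomial Pool.Agent.Helper29 Pool.Agent.Helper29.HP Pool.Agent.Helper29.HP.Six
open Pool.Agent.Helper5.HP (smooth_lsub hom_decomp')

theorem norm_affine5 (δ : P3) (hδ : δ.IsHomogeneous 5)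
    (hsm : ∀ z : Fin 3 → ℂ, z ≠ 0 → eval z δ = 0 → ∃ i, eval z (pderiv i δ) ≠ 0)
    {x y w : P3} {n m : ℕ} (hx : x.IsHomogeneous n) (hy : y.IsHomogeneous m) (hmn : m ≤ n)
    (hinf : ∀ z : Fin 3 → ℂ, z ≠ 0 → z 0 = 0 → eval z δ = 0 → eval z y ≠ 0)
    (h : δ ∣ x ^ 2 - y ^ 2 * w) :
    ∃ q : P3, q.IsHomogeneous (n - m) ∧ δ ∣ x - y * q := by
  classical
  have hirr : Irreducible δ := irreducible_of_smooth (by norm_num) hδ hsm
  have h0 : ¬ X 0 ∣ δ := Pool.Agent.Helper80.EK.not_X_dvd5 hirr hδ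
  have hf : Irreducible (dh2 δ) := irreducible_dh2 hδ hirr h0
  have hne : rh δ ≠ 0 := fun h => h0 (rh_eq_zero h)
  have hrr : IsRelPrime (rh δ) (rh y) := rh_rel hδ h0 hinf
  have hded : IsDedekindDomain (P2 ⧸ Ideal.span {dh2 δ}) :=
    dedekind_of_smooth (dh2 δ) hf (smooth_dh2 hδ hsm)
  set π : P2 →+* P2 ⧸ Ideal.span {dh2 δ} := Ideal.Quotient.mk (Ideal.span {dh2 δ}) with hπ
  have hπ0 : ∀ x, π x = 0 ↔ dh2 δ ∣ x := by
    intro x
    rw [hπ, Ideal.Quotient.eq_zero_iff_mem, Ideal.mem_span_singleton]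
  have h1 : π (dh2 x) ^ 2 = π (dh2 y) ^ 2 * π (dh2 w) := by
    have h2 := map_dvd dh2 h
    rw [map_sub, map_mul, map_pow, map_pow] at h2
    have h3 := (hπ0 _).mpr h2
    rw [map_sub, map_mul, map_pow, map_pow] at h3
    exact sub_eq_zero.mp h3
  have h2 : π (dh2 y) ∣ π (dh2 x) :=
    (IsIntegrallyClosed.pow_dvd_pow_iff two_ne_zero).mp ⟨_, h1⟩
  obtain ⟨q, hq⟩ := h2
  obtain ⟨q', rfl⟩ := Ideal.Quotient.mk_surjective q
  have h3 : dh2 x ∈ Ideal.span {dh2 δ, dh2 y} := by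
    have h4 : π (dh2 x - dh2 y * q') = 0 := by
      rw [map_sub, map_mul, hq]
      exact sub_self _
    obtain ⟨e, he⟩ := (hπ0 _).mp h4
    rw [Ideal.mem_span_pair]
    exact ⟨e, q', by linear_combination -he⟩
  obtain ⟨N, hN⟩ := mem_of_dh2_mem hδ hy hx h3
  exact hom_decomp' hδ hy hx hmn (mem_of_X_pow_mul hne hrr N hN)

/-- **normality**: a form whose square is divisible by the square of another form on a smooth
plane sextic is divisible by it -/
theorem norm_dvd5 (δ : P3) (hδ : δ.IsHomogeneous 5)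
    (hsm : ∀ z : Fin 3 → ℂ, z ≠ 0 → eval z δ = 0 → ∃ i, eval z (pderiv i δ) ≠ 0)
    {x y w : P3} {n m : ℕ} (hx : x.IsHomogeneous n) (hy : y.IsHomogeneous m) (hmn : m ≤ n)
    (hδy : ¬ δ ∣ y) (h : δ ∣ x ^ 2 - y ^ 2 * w) :
    ∃ q : P3, q.IsHomogeneous (n - m) ∧ δ ∣ x - y * q := by
  classical
  have hirr : Irreducible δ := irreducible_of_smooth (by norm_num) hδ hsm
  have hrel : IsRelPrime δ y := hirr.isRelPrime_iff_not_dvd.mpr hδy
  have hy0 : y ≠ 0 := by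
    rintro rfl
    exact hδy (dvd_zero _)
  obtain ⟨l, hl, hav⟩ := TR.exists_lin_avoid hδ hy hrel hy0
  obtain ⟨φ, hφ⟩ := exists_lequiv hl
  let a : (Fin 3 → ℂ) →ₗ[ℂ] (Fin 3 → ℂ) := φ.symm.toLinearMap
  let b : (Fin 3 → ℂ) →ₗ[ℂ] (Fin 3 → ℂ) := φ.toLinearMap
  have hab : ∀ z, a (b z) = z := φ.symm_apply_apply
  have hba : ∀ z, b (a z) = z := φ.apply_symm_apply
  have h1 : ∀ p, lsub b (lsub a p) = p := lsub_lsub hab
  have ha0 : ∀ z, a z = 0 → z = 0 := by
    intro z hz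
    rw [← hba z, hz, map_zero]
  obtain ⟨q, hq1, hq2⟩ := norm_affine5 (lsub a δ) (lsub_hom a hδ) (smooth_lsub hsm hab ha0)
    (lsub_hom a hx) (lsub_hom a hy) hmn (by
      intro z hz hz0 hzδ hzy
      rw [eval_lsub] at hzδ hzy
      apply hz
      apply ha0
      refine hav (a z) ?_ hzδ hzy
      rw [← hφ]
      change b (a z) 0 = 0
      rw [hba, hz0]) (w := lsub a w) (by
      have := map_dvd (lsub a) h
      rwa [map_sub, map_mul, map_pow, map_pow] at this)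
  refine ⟨lsub b q, lsub_hom b hq1, ?_⟩
  have := map_dvd (lsub b) hq2
  rwa [map_sub, map_mul, h1, h1, h1] at this

end Pool.Agent.Helper80.GE
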